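import Pool.Agent.X188.Linking

/-!
# MP_035205_an: a contractive idempotent onto a closed ternary subspace which does not extend to a
blockwise conditional expectation

`A = ℓ^∞`, `E = c₀ ⊕ ℓ^∞`, `F = c₀ ⊕ 0`, `P` the coordinate projection.  A blockwise conditional
expectation would give a contractive projection of `B_E = ℓ^∞` onto `B_F = c₀`, which does not exist.
-/

open Pool.Agent.X188.HM
open scoped WithCStarModule BoundedContinuousFunction
open Filter Topology

namespace Pool.Agent.Results.MP_035205_an.NoExtension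

noncomputable section

/-- `ℓ^∞` -/
abbrev B := ℕ →ᵇ ℂ

instance : PartialOrder B := CStarAlgebra.spectralOrder B

instance : StarOrderedRing B := CStarAlgebra.spectralOrderedRing B

/-- `c₀` -/
def J : Submodule ℂ B where
  carrier := {f | Tendsto f atTop (𝓝 0)}
  add_mem' := by
    intro f g hf hg
    have := Tendsto.add hf hg
    rw [add_zero] at this
    exact this
  zero_mem' := tendsto_const_nhds
  smul_mem' := by
    intro c f hf
    have := Tendsto.const_mul c hf
    rw [mul_zero] at this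
    exact this

lemma mem_J {f : B} : f ∈ J ↔ Tendsto f atTop (𝓝 0) := Iff.rfl

lemma mul_mem_J (a : B) {f : B} (hf : f ∈ J) : a * f ∈ J := by
  rw [mem_J] at hf ⊢
  rw [tendsto_zero_iff_norm_tendsto_zero] at hf ⊢
  refine squeeze_zero (fun _ => norm_nonneg _) (fun n => ?_) (by simpa using hf.const_mul ‖a‖)
  rw [BoundedContinuousFunction.coe_mul, Pi.mul_apply, norm_mul]
  exact mul_le_mul_of_nonneg_right (a.norm_coe_le_norm n) (norm_nonneg _)

lemma isClosed_J : IsClosed (J : Set B) := by
  refine isClosed_of_closure_subset fun f hf => ?_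
  rw [SetLike.mem_coe, mem_J, Metric.tendsto_atTop]
  intro ε hε
  obtain ⟨g, hg, hfg⟩ := Metric.mem_closure_iff.mp hf (ε / 2) (by positivity)
  obtain ⟨N, hN⟩ := Metric.tendsto_atTop.mp (mem_J.mp hg) (ε / 2) (by positivity)
  refine ⟨N, fun n hn => ?_⟩
  have h1 : dist (f n) (g n) < ε / 2 := lt_of_le_of_lt (BoundedContinuousFunction.dist_coe_le_dist n) hfg
  have h2 := hN n hn
  calc dist (f n) 0 ≤ dist (f n) (g n) + dist (g n) 0 := dist_triangle _ _ _
    _ < ε / 2 + ε / 2 := add_lt_add h1 h2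
    _ = ε := by ring

instance : CompleteSpace J := isClosed_J.completeSpace_coe

instance : SMul B J := ⟨fun a f => ⟨a * f, mul_mem_J a f.2⟩⟩

lemma coe_smul_J (a : B) (f : J) : ((a • f : J) : B) = a * f := rfl

instance : CStarModule B J where
  inner f g := (g : B) * star (f : B)
  inner_add_right := add_mul ..
  inner_self_nonneg := mul_star_self_nonneg _
  inner_self {x} := by
    rw [CStarRing.mul_star_self_eq_zero_iff]
    exact Submodule.coe_eq_zero
  inner_op_smul_right := mul_assoc ..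
  inner_smul_right_complex := smul_mul_assoc ..
  star_inner x y := by rw [star_mul, star_star]
  norm_eq_sqrt_norm_inner_self x := by
    rw [CStarRing.norm_self_mul_star, Real.sqrt_mul_self (norm_nonneg _)]
    rfl

/-- the Hilbert module `c₀ ⊕ ℓ^∞` -/
abbrev EE := C⋆ᵐᵒᵈ(B, J × B)

/-- the pair `(f, g)` -/
def pr (f : J) (g : B) : EE := (WithCStarModule.equiv B (J × B)).symm (f, g)

/-- the ternary subspace `c₀ ⊕ 0` -/
def FF : Submodule ℂ EE where
  carrier := {v | v.2 = 0}
  add_mem' := by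
    intro v w hv hw
    change v.2 + w.2 = 0
    rw [hv, hw, add_zero]
  zero_mem' := rfl
  smul_mem' := by
    intro c v hv
    change c • v.2 = 0
    rw [hv, smul_zero]

lemma mem_FF {v : EE} : v ∈ FF ↔ v.2 = 0 := Iff.rfl

/-- the coordinate projection -/
def PP : EE →ₗ[ℂ] EE where
  toFun v := pr v.1 0
  map_add' v w := by
    refine Prod.ext rfl ?_
    change (0 : B) = 0 + 0
    rw [add_zero]
  map_smul' c v := by
    refine Prod.ext rfl ?_
    change (0 : B) = c • 0
    rw [smul_zero]

lemma PP_apply (v : EE) : PP v = pr v.1 0 := rfl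

lemma in_apply (v w : EE) : inner B v w = (w.1 : B) * star (v.1 : B) + w.2 * star v.2 := rfl

lemma closedTernary_FF : IsClosedTernary B FF where
  closed := by
    have h : Continuous fun v : EE => v.2 := by
      have h1 : Continuous (WithCStarModule.equivL ℂ (A := B) (E := J × B)) :=
        (WithCStarModule.equivL ℂ (A := B) (E := J × B)).continuous
      exact continuous_snd.comp h1
    exact isClosed_singleton.preimage h
  tern := by
    intro x hx y _ z _
    rw [mem_FF] at hx ⊢
    change inner B y z * x.2 = 0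
    rw [hx, mul_zero]

lemma full_EE : innerSpan B (⊤ : Submodule ℂ EE) = ⊤ := by
  rw [eq_top_iff]
  intro b _
  have h : b = inner B (pr 0 1) (pr 0 b) := by
    rw [in_apply]
    change b = ((0 : J) : B) * star ((0 : J) : B) + b * star 1
    rw [star_one, mul_one, Submodule.coe_zero, zero_mul, zero_add]
  rw [h]
  exact inner_mem Submodule.mem_top Submodule.mem_top

lemma norm_PP_le (v : EE) : ‖PP v‖ ≤ ‖v‖ := by
  have h1 : ‖PP v‖ = ‖v.1‖ := by
    have h2 : ‖PP v‖ ^ 2 = ‖v.1‖ ^ 2 := by
      rw [WithCStarModule.prod_norm_sq (A := B) (E := J) (F := B)]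
      change ‖inner B v.1 v.1 + (0 : B) * star (0 : B)‖ = _
      rw [zero_mul, add_zero, ← CStarModule.norm_sq_eq B (x := v.1)]
    exact (sq_eq_sq₀ (norm_nonneg _) (norm_nonneg _)).mp h2
  rw [h1]
  exact (le_max_left _ _).trans (WithCStarModule.max_le_prod_norm v)

/-- `B_F ⊆ c₀` -/
lemma innerSpan_FF_le : innerSpan B FF ≤ J := by
  intro a ha
  refine innerSpan_ind (ContinuousLinearMap.id ℂ B) isClosed_J ?_ ha
  intro x hx y hy
  change (y.1 : B) * star (x.1 : B) + y.2 * star x.2 ∈ J
  rw [mem_FF.mp hy, zero_mul, add_zero, mul_comm]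
  exact mul_mem_J _ y.1.2

/-- the `n`-th unit vector -/
def e (n : ℕ) : B := BoundedContinuousFunction.ofNormedAddCommGroupDiscrete
  (fun m => if m = n then (1 : ℂ) else 0) 1 fun m => by
    split_ifs <;> simp

lemma e_apply (n m : ℕ) : e n m = if m = n then (1 : ℂ) else 0 := rfl

lemma e_mem (n : ℕ) : e n ∈ J := by
  rw [mem_J]
  refine tendsto_const_nhds.congr' ?_
  filter_upwards [eventually_gt_atTop n] with m hm
  rw [e_apply, if_neg (by omega)]

lemma e_mem_innerSpan (n : ℕ) : e n ∈ innerSpan B FF := by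
  have h : e n = inner B (pr ⟨e n, e_mem n⟩ 0) (pr ⟨e n, e_mem n⟩ 0) := by
    rw [in_apply]
    change e n = e n * star (e n) + 0 * star 0
    rw [zero_mul, add_zero]
    ext m
    rw [BoundedContinuousFunction.coe_mul, Pi.mul_apply, BoundedContinuousFunction.star_apply,
      e_apply]
    split_ifs <;> simp
  rw [h]
  exact inner_mem (mem_FF.mpr rfl) (mem_FF.mpr rfl)

lemma not_extends : ¬ ExtendsToBlockwiseCondExp B FF PP := by
  rintro ⟨f₁₁, f₁₂, f₂₂, h⟩
  have h1 : f₁₁ 1 ∈ J := innerSpan_FF_le (h.maps₁₁ 1 (by rw [full_EE]; exact Submodule.mem_top))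
  obtain ⟨n, hn⟩ := ((Metric.tendsto_atTop.mp (mem_J.mp h1)) 1 one_pos)
  have h2 := hn n le_rfl
  rw [dist_zero_right] at h2
  have h3 : f₁₁ (1 - (2 : ℂ) • e n) = f₁₁ 1 - (2 : ℂ) • e n := by
    rw [map_sub, map_smul, h.id₁₁ _ (e_mem_innerSpan n)]
  have h4 := contr11 full_EE h (1 - (2 : ℂ) • e n)
  have h5 : ‖(1 : B) - (2 : ℂ) • e n‖ ≤ 1 := by
    refine (BoundedContinuousFunction.norm_le zero_le_one).mpr fun m => ?_
    change ‖(1 : ℂ) - 2 * e n m‖ ≤ 1
    rw [e_apply]
    split_ifs
    · norm_num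
    · simp
  rw [h3] at h4
  have h6 := (BoundedContinuousFunction.norm_coe_le_norm (f₁₁ 1 - (2 : ℂ) • e n) n).trans
    (h4.trans h5)
  have h7 : (f₁₁ 1 - (2 : ℂ) • e n) n = f₁₁ 1 n - 2 := by
    change f₁₁ 1 n - 2 * e n n = _
    rw [e_apply, if_pos rfl, mul_one]
  rw [h7] at h6
  have h8 : ‖(2 : ℂ)‖ ≤ ‖f₁₁ 1 n‖ + ‖f₁₁ 1 n - 2‖ := by
    have := norm_sub_le (f₁₁ 1 n) (f₁₁ 1 n - 2)
    rwa [sub_sub_cancel] at this
  have h9 : ‖(2 : ℂ)‖ = 2 := by norm_num
  rw [h9] at h8
  linarith

end

/-- **Theorem.** There are a C*-algebra `A`, a full Hilbert `A`-module `E`, a closed ternary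
subspace `F` of `E` and a contractive linear idempotent `P` of `E` onto `F` which is not the
`(2,1)`-corner restriction of any blockwise conditional expectation of the linking algebra of `E`
onto the linking algebra of `F`. -/
theorem result : ∃ (A : Type) (_ : NonUnitalCStarAlgebra A) (_ : PartialOrder A)
    (_ : StarOrderedRing A) (E : Type) (_ : NormedAddCommGroup E) (_ : NormedSpace ℂ E)
    (_ : SMul A E) (_ : CStarModule A E) (_ : CompleteSpace E) (F : Submodule ℂ E)
    (P : E →ₗ[ℂ] E),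
    innerSpan A (⊤ : Submodule ℂ E) = ⊤ ∧ IsClosedTernary A F ∧
    (∀ x, P x ∈ F) ∧ (∀ x ∈ F, P x = x) ∧ (∀ x, ‖P x‖ ≤ ‖x‖) ∧
    ¬ ExtendsToBlockwiseCondExp A F P := by
  refine ⟨B, inferInstance, inferInstance, inferInstance, EE, inferInstance, inferInstance,
    inferInstance, inferInstance, inferInstance, FF, PP, full_EE, closedTernary_FF,
    fun x => rfl, fun x hx => ?_, norm_PP_le, not_extends⟩
  refine Prod.ext rfl ?_
  change (0 : B) = x.2
  rw [mem_FF.mp hx]

end Pool.Agent.Results.MP_035205_an.NoExtension
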